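import Mathlib
import Pool.Agent.H451.JR.Fin2
import Pool.Graph.R_seed8.Y667.BKP.Main

/-!
# The Tate–Shafarevich groups and the Selmer groups of Bloch and Kato of the elliptic curves in the middle
# cohomology of the diagonal cubic hypersurfaces

For the tuples `a` with trivial Selmer groups of `√-3` (helper451, projects JB and JR).
-/

set_option autoImplicit false
set_option linter.unusedVariables false
set_option linter.unusedSectionVars false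

namespace Pool.Agent.H508.Z

open NumberField IsDedekindDomain Finset
open scoped Classical

open Pool.Agent.TH841.SH.D (Pt act Gal)
open Pool.Agent.Y667.BKP (PSeq IsV Coch2 IsSelV IsCobV)
open Pool.Agent.TH841.NF.D (Sha)
open Pool.Agent.Y692.QS (Ei w toC nr)
open Pool.Agent.Y715.T.RecG (Pq)
open Pool.Agent.Y703.CT (Tw Dt pD descK)
open Pool.Agent.Y696.CTK (parts ED)
open Pool.Agent.H451.BB
open Pool.Agent.H451.CubT
open Pool.Agent.H451.JB
open Pool.Agent.H451.JL (F sw nW GW eD t_BASE)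

/-- `H¹_f(K, V₃(W)) = 0`: every continuous cocycle of the absolute Galois group of `K` with values in
`V₃(W)`, whose restriction to the completion of `K` at every place is in the image of the Kummer map, is a
coboundary. -/
def SelmerZero {K : Type} [Field K] [NumberField K] (W : WeierstrassCurve K) : Prop :=
  ∀ c : Coch2 W, IsSelV 3 W c → IsCobV 3 W c

theorem selmer_zero {K : Type} [Field K] [NumberField K] {W : WeierstrassCurve K}
    (h1 : Finite W.toAffine.Point) (h2 : ∀ (n : ℕ) (x : Sha W), 3 ^ n • x = 0 → x = 0) :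
    SelmerZero W := by
  intro c hc
  have h := Pool.Agent.Y667.BKP.h1f_zero Nat.prime_three h1 0
    (fun k x hx => by rw [pow_zero, one_smul]; exact h2 k x hx)
    (QuotientAddGroup.mk (⟨c, hc⟩ : Pool.Agent.Y667.BKP.selCocV 3 W))
  have h' := (QuotientAddGroup.eq_zero_iff _).1 h
  rw [AddSubgroup.mem_addSubgroupOf] at h'
  exact h'

theorem sha_base {K : Type} [Field K] [NumberField K] [IsCyclotomicExtension {3} ℚ K]
    (j : Ei ≃+* 𝓞 K) {d c : Ei} (h : Base d) (h9 : ¬ (9 : ℤ) ∣ nr d - 1) (hc : c ≠ 0) :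
    Finite (ED (j (c ^ 3 * d) : K)).toAffine.Point ∧
      ∀ (n : ℕ) (x : Sha (ED (j (c ^ 3 * d) : K))), 3 ^ n • x = 0 → x = 0 := by
  rcases h with rfl | ⟨n, π, e, hdt, hk, h9', rfl⟩
  · exact absurd ⟨0, by decide⟩ h9
  · have hne : c ^ 3 * pD π e ≠ 0 :=
      mul_ne_zero (pow_ne_zero 3 hc) (Pool.Agent.Y153.CTRAM.ne_zero_of hdt)
    exact ⟨(parts.mwt parts.trf K j _ hne fun i₀ hi u a hT =>
        (descK hdt hk h9' (tw_cube hc hT)).2).1,
      parts.sht parts.trf K j _ hne fun i₀ hi u a hT => (descK hdt hk h9' (tw_cube hc hT)).1⟩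

theorem sha_tuple {K : Type} [Field K] [NumberField K] [IsCyclotomicExtension {3} ℚ K]
    (j : Ei ≃+* 𝓞 K) {m k : ℕ} {S : Fin m → Finset Ei} (hS : ∀ l, ∀ π ∈ S l, Pq π)
    (φ : Fin k → Finset (Fin m))
    (hφ : ∀ T : Finset (Fin m), T.card = (m - 3) / 2 → ∃ i, φ i = T)
    (hc : CondT (RA m) S) (hG : GW (wT (WT φ) S) (UN S)) (T : Finset (Fin m))
    (hT : T.card = (m - 3) / 2) :
    Finite (E ((DS (fun i => j (∏ π ∈ S i, π)) T : 𝓞 K) : K)).toAffine.Point ∧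
      ∀ (n : ℕ) (x : Sha (E ((DS (fun i => j (∏ π ∈ S i, π)) T : 𝓞 K) : K))),
        3 ^ n • x = 0 → x = 0 := by
  rw [condT_iff] at hc
  obtain ⟨i, rfl⟩ := hφ T hT
  have hU : ∀ π ∈ UN S, Pq π := fun π hπ => by
    obtain ⟨l, hl⟩ := (mem_UN S).1 hπ
    exact hS l π hl
  have h4 : DS (fun i => j (∏ π ∈ S i, π)) (φ i) = j (DD (fun i => ∏ π ∈ S i, π) (φ i)) := by
    unfold DS DD
    rw [map_mul, map_prod, map_prod]
  have h9 : ¬ (9 : ℤ) ∣ nr (eD 1 (wT (WT φ) S i) (UN S)) - 1 := by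
    rw [← nr_DD φ S i hS]
    exact hc (φ i) hT
  have h5 : ∏ π ∈ UN S, π ^ (ex φ S i π / 3) ≠ 0 := by
    rw [Finset.prod_ne_zero_iff]
    exact fun π hπ => pow_ne_zero _ (hU π hπ).prime.ne_zero
  rw [h4, DD_cube φ S i]
  exact sha_base j (t_BASE (UN S) (wT (WT φ) S i) 1 hU one_ne_zero (hG i) h9) h9 h5

/-- **The points, the Tate–Shafarevich groups and the Selmer groups** if the Selmer groups of `√-3` are as
small as possible. -/
theorem sha_of_sel {K : Type} [Field K] [NumberField K] [IsCyclotomicExtension {3} ℚ K] {m : ℕ}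
    (hm : m = 3 ∨ m = 5 ∨ m = 7) (a : Fin m → 𝓞 K) (h1 : ∀ i, Cls (a i)) (h2 : AdmA a)
    (h3 : SelRk a (fun _ => 0)) (T : Finset (Fin m)) (hT : T.card = (m - 3) / 2) :
    Finite (E ((DS a T : 𝓞 K) : K)).toAffine.Point ∧
      ∀ (n : ℕ) (x : Sha (E ((DS a T : 𝓞 K) : K))), 3 ^ n • x = 0 → x = 0 := by
  obtain ⟨⟨j, hj⟩, -⟩ := Pool.Agent.Y455.CTK.jex K
  obtain ⟨h, hh⟩ : ∃ h : ℕ, h = (m - 3) / 2 := ⟨_, rfl⟩
  have hcard : (powersetCard h (univ : Finset (Fin m))).card = m.choose h := by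
    rw [card_powersetCard, card_univ, Fintype.card_fin]
  obtain ⟨ψ⟩ : Nonempty (Fin (m.choose h) ≃ powersetCard h (univ : Finset (Fin m))) :=
    ⟨(Finset.equivFinOfCardEq hcard).symm⟩
  obtain ⟨φ, hφ⟩ : ∃ φ : Fin (m.choose h) → Finset (Fin m), φ = fun i => (ψ i : Finset (Fin m)) :=
    ⟨_, rfl⟩
  have hφ2 : ∀ i, (φ i).card = h := by
    intro i
    rw [hφ]
    exact (mem_powersetCard.1 (ψ i).2).2
  have hφ3 : ∀ T : Finset (Fin m), T.card = (m - 3) / 2 → ∃ i, φ i = T := by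
    intro T hT
    obtain ⟨i, hi⟩ := ψ.surjective ⟨T, mem_powersetCard.2 ⟨subset_univ _, by rw [hT, hh]⟩⟩
    exact ⟨i, by rw [hφ]; show ((ψ i : _) : Finset (Fin m)) = T; rw [hi]⟩
  obtain ⟨X, hX⟩ : ∃ X : ℕ, ∀ i, Algebra.norm ℤ (a i) ≤ X := by
    refine ⟨∑ i, (Algebra.norm ℤ (a i)).natAbs, fun i => ?_⟩
    have h4 := Finset.single_le_sum (f := fun i => (Algebra.norm ℤ (a i)).natAbs)
      (fun i _ => Nat.zero_le _) (mem_univ i)
    have h5 := Int.le_natAbs (a := Algebra.norm ℤ (a i))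
    have h6 : (((Algebra.norm ℤ (a i)).natAbs : ℕ) : ℤ) ≤
      ((∑ i, (Algebra.norm ℤ (a i)).natAbs : ℕ) : ℤ) := by exact_mod_cast h4
    exact h5.trans h6
  obtain ⟨S, hS, rfl⟩ := box_ex j hj X a fun i => ⟨h1 i, hX i⟩
  have hc := (adm_tuple j hj S).1 h2
  exact sha_tuple j (TT_Pq hS) φ hφ3 hc
    ((sel_tuple j (TT_Pq hS) φ (fun i => by rw [hφ2, hh]) hφ3 hc).2 h3) T hT

/-- **A positive proportion of all `a`**, for a property which follows from trivial Selmer groups. -/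
theorem box_pos (K : Type) [Field K] [NumberField K] [IsCyclotomicExtension {3} ℚ K]
    (m : ℕ) (hm : m = 3 ∨ m = 5 ∨ m = 7) (P : (Fin m → 𝓞 K) → Prop)
    (hP : ∀ a : Fin m → 𝓞 K, (∀ i, Cls (a i)) → AdmA a → SelRk a (fun _ => 0) → P a) :
    ∃ c : ℝ, 0 < c ∧ ∃ X₀ : ℕ, ∀ X : ℕ, X₀ ≤ X →
      c * ({a : Fin m → 𝓞 K | ∀ i, a i ≠ 0 ∧ Algebra.norm ℤ (a i) ≤ X}.ncard : ℝ) ≤
        ({a : Fin m → 𝓞 K | (∀ i, a i ≠ 0 ∧ Algebra.norm ℤ (a i) ≤ X) ∧ P a}.ncard : ℝ) := by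
  obtain ⟨⟨j, hj⟩, -⟩ := Pool.Agent.Y455.CTK.jex K
  obtain ⟨-, -, ⟨c, hc, X₀, hlow⟩, -, -, hlim⟩ := Pool.Agent.H451.JR.final_all K m hm
  have hlim0 := hlim fun _ => 0
  obtain ⟨p, hp⟩ : ∃ p : ℝ, p = ∏ S ∈ powersetCard ((m - 3) / 2) (univ : Finset (Fin m)), pr 0 :=
    ⟨_, rfl⟩
  have hpr : 0 < pr 0 := Pool.Agent.H451.JR.cr_pos 0
  have hp0 : 0 < p := by
    rw [hp]
    exact Finset.prod_pos fun _ _ => hpr
  rw [← hp] at hlim0
  obtain ⟨X₁, hX1⟩ := Filter.eventually_atTop.1 (hlim0.eventually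
    (lt_mem_nhds (show p / 2 < p by linarith)))
  refine ⟨p / 2 * c / 16 ^ m, by positivity, max X₀ (max X₁ 1), fun X hXX => ?_⟩
  have a1 : X₀ ≤ X := le_trans (le_max_left _ _) hXX
  have a2 : X₁ ≤ X := le_trans (le_trans (le_max_left _ _) (le_max_right _ _)) hXX
  have a3 : 1 ≤ X := le_trans (le_trans (le_max_right _ _) (le_max_right _ _)) hXX
  obtain ⟨A, hA, hAc⟩ := card_all X a3
  have hsub : {a : Fin m → 𝓞 K | ∀ i, a i ≠ 0 ∧ Algebra.norm ℤ (a i) ≤ X} ⊆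
      ((Fintype.piFinset fun _ : Fin m => A.image j : Finset (Fin m → 𝓞 K)) :
        Set (Fin m → 𝓞 K)) := by
    intro a ha
    rw [Finset.mem_coe, Fintype.mem_piFinset]
    intro i
    rw [mem_image]
    refine ⟨j.symm (a i), hA _ ?_, j.apply_symm_apply _⟩
    rw [← hj, j.apply_symm_apply]
    exact (ha i).2
  have hfin : {a : Fin m → 𝓞 K | ∀ i, a i ≠ 0 ∧ Algebra.norm ℤ (a i) ≤ X}.Finite :=
    (Finset.finite_toSet _).subset hsub
  have h1 : ({a : Fin m → 𝓞 K | ∀ i, a i ≠ 0 ∧ Algebra.norm ℤ (a i) ≤ X}.ncard : ℝ) ≤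
      (16 * X) ^ m := by
    have h2 := Set.ncard_le_ncard hsub (Finset.finite_toSet _)
    rw [Set.ncard_coe_finset, Fintype.card_piFinset, prod_const, card_univ, Fintype.card_fin] at h2
    have h3 : (((A.image j).card ^ m : ℕ) : ℝ) ≤ (16 * X) ^ m := by
      push_cast
      refine pow_le_pow_left₀ (Nat.cast_nonneg _) (le_trans ?_ hAc) _
      exact_mod_cast card_image_le
    exact le_trans (by exact_mod_cast h2) h3
  have h4 : ({a : Fin m → 𝓞 K | (∀ i, Cls (a i) ∧ Algebra.norm ℤ (a i) ≤ X) ∧ AdmA a ∧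
        SelRk a fun _ => 0}.ncard : ℝ) ≤
      ({a : Fin m → 𝓞 K | (∀ i, a i ≠ 0 ∧ Algebra.norm ℤ (a i) ≤ X) ∧ P a}.ncard : ℝ) := by
    have h5 : {a : Fin m → 𝓞 K | (∀ i, Cls (a i) ∧ Algebra.norm ℤ (a i) ≤ X) ∧ AdmA a ∧
        SelRk a fun _ => 0} ⊆
        {a : Fin m → 𝓞 K | (∀ i, a i ≠ 0 ∧ Algebra.norm ℤ (a i) ≤ X) ∧ P a} := by
      rintro a ⟨g1, g2, g3⟩
      exact ⟨fun i => ⟨(g1 i).1.2.1.ne_zero, (g1 i).2⟩, hP a (fun i => (g1 i).1) g2 g3⟩
    exact_mod_cast Set.ncard_le_ncard h5 (hfin.subset fun a ha => ha.1)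
  have hXpos : (0 : ℝ) < X := by exact_mod_cast a3
  have h7 := hlow X a1
  have hpos : (0 : ℝ) < ({a : Fin m → 𝓞 K | (∀ i, Cls (a i) ∧ Algebra.norm ℤ (a i) ≤ X) ∧
      AdmA a}.ncard : ℝ) := lt_of_lt_of_le (by positivity) h7
  have h6 := hX1 X a2
  rw [lt_div_iff₀ hpos] at h6
  have h8 : p / 2 * c * (X : ℝ) ^ m ≤ p / 2 *
      ({a : Fin m → 𝓞 K | (∀ i, Cls (a i) ∧ Algebra.norm ℤ (a i) ≤ X) ∧ AdmA a}.ncard : ℝ) := by
    rw [mul_assoc]
    exact mul_le_mul_of_nonneg_left h7 (by positivity)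
  calc p / 2 * c / 16 ^ m *
        ({a : Fin m → 𝓞 K | ∀ i, a i ≠ 0 ∧ Algebra.norm ℤ (a i) ≤ X}.ncard : ℝ) ≤
      p / 2 * c / 16 ^ m * (16 * X) ^ m := mul_le_mul_of_nonneg_left h1 (by positivity)
    _ = p / 2 * c * (X : ℝ) ^ m := by
      rw [mul_pow]
      field_simp
    _ ≤ _ := h8.trans (h6.le.trans h4)

end Pool.Agent.H508.Z
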